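import Pool.Agent.helper32.Cant.Defs

set_option autoImplicit false

namespace Pool.Agent.helper32.Cant

/-- module RC: countable stability -/
theorem good_piece (S : Set ℝ) (hS : dimH S = 1) (r : ℝ → ℝ) (hr : ∀ x ∈ S, 0 < r x) (s : NNReal)
    (hs : s < 1) : ∃ l m : ℤ, (s : ENNReal) < dimH {x ∈ S | (2 : ℝ) ^ l ≤ r x ∧ r x < 2 ^ (l + 1) ∧
      m * 2 ^ l ≤ x ∧ x < (m + 1) * 2 ^ l} := by
  by_contra! hcon
  have hcov : S ⊆ ⋃ p : ℤ × ℤ, {x ∈ S | (2 : ℝ) ^ p.1 ≤ r x ∧ r x < 2 ^ (p.1 + 1) ∧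
      p.2 * 2 ^ p.1 ≤ x ∧ x < (p.2 + 1) * 2 ^ p.1} := by
    intro x hx
    have h2 : (0 : ℝ) < 2 ^ (Int.log 2 (r x)) := by positivity
    refine Set.mem_iUnion.2 ⟨(Int.log 2 (r x), ⌊x / 2 ^ (Int.log 2 (r x))⌋), hx, ?_, ?_, ?_, ?_⟩
    · exact_mod_cast Int.zpow_log_le_self (b := 2) (by norm_num) (hr x hx)
    · exact_mod_cast Int.lt_zpow_succ_log_self (b := 2) (by norm_num) (r x)
    · rw [← le_div_iff₀ h2]; exact Int.floor_le _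
    · rw [← div_lt_iff₀ h2]; exact Int.lt_floor_add_one _
  have h1 := dimH_mono hcov
  rw [dimH_iUnion, hS] at h1
  have h2 : (⨆ p : ℤ × ℤ, dimH {x ∈ S | (2 : ℝ) ^ p.1 ≤ r x ∧ r x < 2 ^ (p.1 + 1) ∧
      p.2 * 2 ^ p.1 ≤ x ∧ x < (p.2 + 1) * 2 ^ p.1}) ≤ (s : ENNReal) :=
    iSup_le fun p => hcon p.1 p.2
  have h3 : (1 : ENNReal) ≤ s := h1.trans h2
  have h4 : (1 : NNReal) ≤ s := by exact_mod_cast h3
  exact absurd hs (not_lt.2 h4)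

end Pool.Agent.helper32.Cant
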