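import Pool.Agent.helper32.Cant.Defs

set_option autoImplicit false

namespace Pool.Agent.helper32.Cant

open MeasureTheory Filter Topology
open scoped ENNReal

/-- three neighbouring cells -/
noncomputable def RB_three (o lam : ℝ) (n : ℕ) (y : ℝ) : Finset ℤ :=
  {⌊3 ^ n * (y - o) / lam⌋ - 1, ⌊3 ^ n * (y - o) / lam⌋, ⌊3 ^ n * (y - o) / lam⌋ + 1}

theorem RB_three_card (o lam : ℝ) (n : ℕ) (y : ℝ) : (RB_three o lam n y).card ≤ 3 := by
  unfold RB_three; exact Finset.card_le_three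

theorem RB_mem_three {o lam : ℝ} (hlam : 0 < lam) (n : ℕ) {x y : ℝ} (h : |x - y| ≤ lam / 3 ^ n) :
    ⌊3 ^ n * (x - o) / lam⌋ ∈ RB_three o lam n y := by
  have h3 : (0 : ℝ) < 3 ^ n := by positivity
  have h1 : |3 ^ n * (x - o) / lam - 3 ^ n * (y - o) / lam| ≤ 1 := by
    have h2 : 3 ^ n * (x - o) / lam - 3 ^ n * (y - o) / lam = (3 ^ n / lam) * (x - y) := by
      field_simp; ring
    rw [h2, abs_mul, abs_of_pos (by positivity)]
    rw [le_div_iff₀ h3] at h
    rw [div_mul_eq_mul_div, div_le_one hlam]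
    linarith
  rw [abs_le] at h1
  set v := 3 ^ n * (x - o) / lam
  set v' := 3 ^ n * (y - o) / lam
  have a1 := Int.floor_le v
  have a2 := Int.lt_floor_add_one v
  have a3 := Int.floor_le v'
  have a4 := Int.lt_floor_add_one v'
  have b1 : (⌊v⌋ : ℝ) < ⌊v'⌋ + 2 := by linarith
  have b2 : (⌊v'⌋ : ℝ) < ⌊v⌋ + 2 := by linarith
  have b1' : ⌊v⌋ < ⌊v'⌋ + 2 := by exact_mod_cast b1
  have b2' : ⌊v'⌋ < ⌊v⌋ + 2 := by exact_mod_cast b2
  unfold RB_three
  simp only [Finset.mem_insert, Finset.mem_singleton]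
  show ⌊v⌋ = ⌊v'⌋ - 1 ∨ ⌊v⌋ = ⌊v'⌋ ∨ ⌊v⌋ = ⌊v'⌋ + 1
  omega

/-- module RB -/
theorem few_cells (B : Set ℝ) (t : NNReal) (ht : 0 < t) (hB : dimH B < t)
    (o : ℝ) (lam : ℝ) (hlam : 0 < lam) :
    ∃ C : ℝ, ∀ p : ℕ, ∃ Z : ℕ → Finset ℤ, (∀ n ≥ p, ((Z n).card : ℝ) ≤ C * 3 ^ ((t : ℝ) * n)) ∧
      ∀ y ∈ B, ∃ n ≥ p, ⌊3 ^ n * (y - o) / lam⌋ ∈ Z n := by
  classical
  refine ⟨3 * (3 / lam) ^ (t : ℝ) + 3, fun p => ?_⟩
  have ht' : (0 : ℝ) < t := by exact_mod_cast ht
  have h0 : Measure.hausdorffMeasure (t : ℝ) B = 0 := hausdorffMeasure_of_dimH_lt hB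
  -- a cover
  obtain ⟨U, hBU, hUd, hsum⟩ : ∃ U : ℕ → Set ℝ, B ⊆ ⋃ i, U i ∧
      (∀ i, Metric.ediam (U i) ≤ ENNReal.ofReal (lam / 3 ^ p)) ∧
      ∑' i, Metric.ediam (U i) ^ (t : ℝ) ≤ 1 := by
    rw [Measure.hausdorffMeasure_apply] at h0
    have h1 : ⨅ (U : ℕ → Set ℝ) (_ : B ⊆ ⋃ n, U n)
        (_ : ∀ n, Metric.ediam (U n) ≤ ENNReal.ofReal (lam / 3 ^ p)),
          ∑' n, ⨆ _ : (U n).Nonempty, Metric.ediam (U n) ^ (t : ℝ) ≤ 0 := by
      rw [← h0]
      exact le_iSup₂ (f := fun (r : ℝ≥0∞) (_ : 0 < r) => ⨅ (U : ℕ → Set ℝ) (_ : B ⊆ ⋃ n, U n)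
        (_ : ∀ n, Metric.ediam (U n) ≤ r),
          ∑' n, ⨆ _ : (U n).Nonempty, Metric.ediam (U n) ^ (t : ℝ))
        (ENNReal.ofReal (lam / 3 ^ p)) (ENNReal.ofReal_pos.2 (by positivity))
    have h2 := lt_of_le_of_lt h1 one_pos
    simp only [iInf_lt_iff] at h2
    obtain ⟨U, hU1, hU2, hU3⟩ := h2
    refine ⟨U, hU1, hU2, le_trans (ENNReal.tsum_le_tsum fun i => ?_) hU3.le⟩
    by_cases hne : (U i).Nonempty
    · simp [hne]
    · rw [Set.not_nonempty_iff_eq_empty] at hne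
      rw [hne, Metric.ediam_empty, ENNReal.zero_rpow_of_pos ht']
      exact zero_le
  -- points
  have hpt : ∀ i, ∃ y : ℝ, (U i).Nonempty → y ∈ U i := by
    intro i
    by_cases hne : (U i).Nonempty
    · exact ⟨hne.some, fun _ => hne.some_mem⟩
    · exact ⟨0, fun h => absurd h hne⟩
  choose y hy using hpt
  -- the levels
  have hfin : ∀ n : ℕ, ∃ hf : {i : ℕ | ENNReal.ofReal ((lam / 3 ^ (n + 1)) ^ (t : ℝ)) ≤
      Metric.ediam (U i) ^ (t : ℝ)}.Finite, (hf.toFinset.card : ℝ≥0∞) ≤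
        1 / ENNReal.ofReal ((lam / 3 ^ (n + 1)) ^ (t : ℝ)) := fun n =>
    ENNReal.finset_card_const_le_le_of_tsum_le ENNReal.one_ne_top hsum
      (ENNReal.ofReal_pos.2 (by positivity)).ne'
  choose hf hfc using hfin
  refine ⟨fun n => ((hf n).toFinset.biUnion fun i => RB_three o lam n (y i)) ∪
    RB_three o lam n (y (n - p)), ?_, ?_⟩
  · intro n hn
    have h1 : (((hf n).toFinset.biUnion fun i => RB_three o lam n (y i)) ∪
        RB_three o lam n (y (n - p))).card ≤ (hf n).toFinset.card * 3 + 3 := by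
      refine (Finset.card_union_le _ _).trans (add_le_add ?_ (RB_three_card _ _ _ _))
      refine Finset.card_biUnion_le.trans ?_
      refine (Finset.sum_le_sum fun i _ => RB_three_card o lam n (y i)).trans (le_of_eq ?_)
      rw [Finset.sum_const, smul_eq_mul]
    have h2 : ((hf n).toFinset.card : ℝ) ≤ (3 / lam) ^ (t : ℝ) * 3 ^ ((t : ℝ) * n) := by
      have h3 := hfc n
      have hpos : (0 : ℝ) < (lam / 3 ^ (n + 1)) ^ (t : ℝ) := by positivity
      rw [one_div, ← ENNReal.ofReal_inv_of_pos hpos] at h3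
      have h4 : (((hf n).toFinset.card : ℝ≥0∞)) = ENNReal.ofReal ((hf n).toFinset.card : ℝ) := by
        simp
      rw [h4, ENNReal.ofReal_le_ofReal_iff (by positivity)] at h3
      refine h3.trans (le_of_eq ?_)
      rw [← Real.inv_rpow (by positivity), inv_div, pow_succ, mul_comm ((3 : ℝ) ^ n) 3,
        mul_div_right_comm, Real.mul_rpow (by positivity) (by positivity)]
      congr 1
      rw [← Real.rpow_natCast, ← Real.rpow_mul (by norm_num), mul_comm]
    have h3 : (1 : ℝ) ≤ 3 ^ ((t : ℝ) * n) := Real.one_le_rpow (by norm_num) (by positivity)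
    have h1' : ((((hf n).toFinset.biUnion fun i => RB_three o lam n (y i)) ∪
        RB_three o lam n (y (n - p))).card : ℝ) ≤ (hf n).toFinset.card * 3 + 3 := by
      exact_mod_cast h1
    refine h1'.trans ?_
    nlinarith
  · intro x hx
    obtain ⟨i, hi⟩ := Set.mem_iUnion.1 (hBU hx)
    have hyi := hy i ⟨x, hi⟩
    have hdist : edist x (y i) ≤ Metric.ediam (U i) := Metric.edist_le_ediam_of_mem hi hyi
    by_cases hd : Metric.ediam (U i) = 0
    · -- a single point
      have hxy : x = y i := by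
        rw [hd] at hdist
        exact edist_le_zero.1 hdist
      refine ⟨p + i, Nat.le_add_right _ _, Finset.mem_union_right _ ?_⟩
      have e : p + i - p = i := by omega
      rw [e, hxy]
      exact RB_mem_three hlam _ (by simp; positivity)
    · have hfinite : Metric.ediam (U i) ≠ ⊤ := ne_top_of_le_ne_top ENNReal.ofReal_ne_top (hUd i)
      set δ := (Metric.ediam (U i)).toReal with hδdef
      have hδ : 0 < δ := ENNReal.toReal_pos hd hfinite
      have hδe : Metric.ediam (U i) = ENNReal.ofReal δ := (ENNReal.ofReal_toReal hfinite).symm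
      have hδp : δ ≤ lam / 3 ^ p := by
        have := hUd i
        rw [hδe, ENNReal.ofReal_le_ofReal_iff (by positivity)] at this
        exact this
      have hex : ∃ k : ℕ, lam / 3 ^ k < δ := by
        obtain ⟨k, hk⟩ := exists_pow_lt_of_lt_one (show 0 < δ / lam by positivity)
          (show (1 / 3 : ℝ) < 1 by norm_num)
        refine ⟨k, ?_⟩
        rw [one_div, inv_pow, lt_div_iff₀ hlam] at hk
        calc lam / 3 ^ k = (3 ^ k)⁻¹ * lam := by rw [div_eq_mul_inv, mul_comm]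
          _ < δ := hk
      have hk := Nat.find_spec hex
      set k := Nat.find hex with hkdef
      have hkp : p < k := by
        by_contra hle
        push Not at hle
        have h1 : (3 : ℝ) ^ k ≤ 3 ^ p := pow_le_pow_right₀ (by norm_num) hle
        have h2 : lam / 3 ^ p ≤ lam / 3 ^ k := by gcongr
        linarith
      have hk1 : δ ≤ lam / 3 ^ (k - 1) := by
        have := Nat.find_min hex (m := k - 1) (by omega)
        exact not_lt.1 this
      refine ⟨k - 1, by omega, Finset.mem_union_left _ (Finset.mem_biUnion.2 ⟨i, ?_, ?_⟩)⟩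
      · rw [Set.Finite.mem_toFinset]
        show ENNReal.ofReal ((lam / 3 ^ (k - 1 + 1)) ^ (t : ℝ)) ≤ Metric.ediam (U i) ^ (t : ℝ)
        rw [hδe, ← ENNReal.ofReal_rpow_of_pos (by positivity)]
        have e : k - 1 + 1 = k := by omega
        rw [e]
        exact ENNReal.rpow_le_rpow (ENNReal.ofReal_le_ofReal hk.le) ht'.le
      · apply RB_mem_three hlam
        rw [hδe, edist_dist, ENNReal.ofReal_le_ofReal_iff hδ.le, Real.dist_eq] at hdist
        exact hdist.trans hk1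

end Pool.Agent.helper32.Cant
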