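import Pool.Agent.helper32.Cant.Defs

set_option autoImplicit false

namespace Pool.Agent.helper32.Cant

open Finset

/-- the point of the centred Cantor set with the signs `b` -/
noncomputable def ept (b : ℕ → Bool) : ℝ := ∑' i : ℕ, (sgn (b i) : ℝ) / 3 ^ (i + 1)

/-- the first letters -/
def pre (b : ℕ → Bool) (n : ℕ) : Word n := fun i => b i

theorem RW_geom : HasSum (fun i : ℕ => (1 : ℝ) / 3 ^ (i + 1)) (1 / 2) := by
  have h := (hasSum_geometric_of_lt_one (r := (1 / 3 : ℝ)) (by norm_num) (by norm_num)).mul_left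
    (1 / 3 : ℝ)
  have e : (fun i : ℕ => (1 : ℝ) / 3 ^ (i + 1)) = fun i : ℕ => (1 / 3 : ℝ) * (1 / 3) ^ i := by
    ext i; rw [one_div, one_div, pow_succ, mul_inv, inv_pow]; ring
  have e2 : (1 / 2 : ℝ) = 1 / 3 * (1 - 1 / 3)⁻¹ := by norm_num
  rw [e, e2]
  exact h

theorem RW_abs_sgn (b : Bool) : |(sgn b : ℝ)| = 1 := by
  cases b <;> simp [sgn]

theorem RW_summable (b : ℕ → Bool) : Summable (fun i : ℕ => (sgn (b i) : ℝ) / 3 ^ (i + 1)) := by
  refine Summable.of_norm_bounded RW_geom.summable fun i => ?_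
  rw [norm_div, Real.norm_eq_abs, RW_abs_sgn, norm_pow]
  simp

/-- module RW -/
theorem ept_mem (b : ℕ → Bool) : ept b + 1 / 2 ∈ cantorSet := by
  have h := ofDigits_bool_to_fin_three_mem_cantorSet b
  convert h using 1
  rw [ept, ← RW_geom.tsum_eq, ← (RW_summable b).tsum_add RW_geom.summable, Real.ofDigits]
  refine tsum_congr fun i => ?_
  unfold Real.ofDigitsTerm
  cases hb : b i
  · simp [sgn, hb]; ring
  · simp [sgn, hb, pow_succ]; ring

theorem abs_ept_le (b : ℕ → Bool) : |ept b| ≤ 1 / 2 := by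
  rw [ept, ← Real.norm_eq_abs, ← RW_geom.tsum_eq]
  refine tsum_of_norm_bounded RW_geom.summable.hasSum fun i => ?_
  rw [norm_div, Real.norm_eq_abs, RW_abs_sgn, norm_pow]
  simp

theorem ept_approx (b : ℕ → Bool) (n : ℕ) : |3 ^ n * ept b - (E (pre b n) : ℝ)| ≤ 1 / 2 := by
  have h1 : ept b = ∑ i ∈ range n, (sgn (b i) : ℝ) / 3 ^ (i + 1) +
      ∑' i, (sgn (b (i + n)) : ℝ) / 3 ^ (i + n + 1) :=
    ((RW_summable b).sum_add_tsum_nat_add n).symm
  have h2 : ∑' i, (sgn (b (i + n)) : ℝ) / 3 ^ (i + n + 1) = (1 / 3 ^ n) * ept (fun i => b (i + n)) := by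
    rw [ept, ← tsum_mul_left]
    refine tsum_congr fun i => ?_
    rw [show i + n + 1 = n + (i + 1) by ring, pow_add]
    field_simp
  have h3 : (E (pre b n) : ℝ) = 3 ^ n * ∑ i ∈ range n, (sgn (b i) : ℝ) / 3 ^ (i + 1) := by
    unfold E pre
    push_cast
    rw [Finset.mul_sum, ← Fin.sum_univ_eq_sum_range (fun i => (3 : ℝ) ^ n * ((sgn (b i) : ℝ) / 3 ^ (i + 1))) n]
    refine Finset.sum_congr rfl fun i _ => ?_
    have : (3 : ℝ) ^ n = 3 ^ (n - 1 - (i : ℕ)) * 3 ^ ((i : ℕ) + 1) := by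
      rw [← pow_add]; congr 1; have := i.2; omega
    rw [this]
    field_simp
  rw [h3, h1, h2]
  have h4 : (3 : ℝ) ^ n * (∑ i ∈ range n, (sgn (b i) : ℝ) / 3 ^ (i + 1) +
      1 / 3 ^ n * ept fun i => b (i + n)) - 3 ^ n * ∑ i ∈ range n, (sgn (b i) : ℝ) / 3 ^ (i + 1) =
      ept fun i => b (i + n) := by
    field_simp; ring
  rw [h4]
  exact abs_ept_le _

theorem RW_card_prefix {m N : ℕ} (h : m ≤ N) (w : Word m) :
    (univ.filter fun v : Word N => (fun i : Fin m => v ⟨i, i.2.trans_le h⟩) = w).card ≤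
      2 ^ (N - m) := by
  classical
  have hc : (univ : Finset (Word (N - m))).card = 2 ^ (N - m) := by simp [Word]
  rw [← hc]
  refine Finset.card_le_card_of_injOn (fun v j => v ⟨m + j, by have := j.2; omega⟩)
    (fun _ _ => Finset.mem_coe.2 (Finset.mem_univ _)) ?_
  intro v hv v' hv' hvv
  simp only [Finset.coe_filter, Finset.mem_univ, true_and, Set.mem_ofPred_eq] at hv hv'
  ext i
  by_cases hi : (i : ℕ) < m
  · have h1 := congrFun hv ⟨i, hi⟩
    have h2 := congrFun hv' ⟨i, hi⟩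
    simp only at h1 h2
    have h3 : v i = w ⟨i, hi⟩ := h1
    have h4 : v' i = w ⟨i, hi⟩ := h2
    rw [h3, h4]
  · have h1 := congrFun hvv ⟨(i : ℕ) - m, by have := i.2; omega⟩
    simp only at h1
    have h2 : (⟨m + ((i : ℕ) - m), by have := i.2; omega⟩ : Fin N) = i := by
      ext; simp; omega
    rw [h2] at h1
    rw [h1]

theorem RW_sum (N : ℕ) : ∑ m ∈ range (N + 1), (1 : ℝ) / ((m : ℝ) + 1) ^ 2 ≤
    2 - 1 / ((N : ℝ) + 1) := by
  induction N with
  | zero => norm_num
  | succ N ih =>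
    rw [Finset.sum_range_succ]
    push_cast
    have h1 : (0 : ℝ) < (N : ℝ) + 1 := by positivity
    have h2 : (0 : ℝ) < (N : ℝ) + 1 + 1 := by positivity
    have h3 : (1 : ℝ) / ((N : ℝ) + 1 + 1) ^ 2 ≤ 1 / ((N : ℝ) + 1) - 1 / ((N : ℝ) + 1 + 1) := by
      rw [div_sub_div _ _ h1.ne' h2.ne', div_le_div_iff₀ (by positivity) (by positivity)]
      nlinarith
    linarith

theorem konig (W : (m : ℕ) → Finset (Word m))
    (hW : ∀ m, ((W m).card : ℝ) ≤ 2 ^ m / (4 * ((m : ℝ) + 1) ^ 2)) :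
    ∃ b : ℕ → Bool, ∀ m, pre b m ∉ W m := by
  classical
  -- finite version
  have hfin : ∀ N : ℕ, ∃ b : ℕ → Bool, ∀ m ≤ N, pre b m ∉ W m := by
    intro N
    by_contra hcon
    push Not at hcon
    -- every word of length `N` is bad
    have hcov : (univ : Finset (Word N)) ⊆ (range (N + 1)).biUnion fun m =>
        if h : m ≤ N then (W m).biUnion fun w => univ.filter fun v : Word N =>
          (fun i : Fin m => v ⟨i, i.2.trans_le h⟩) = w else ∅ := by
      intro v _
      obtain ⟨m, hm, hb⟩ := hcon (fun i => if h : i < N then v ⟨i, h⟩ else false)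
      refine Finset.mem_biUnion.2 ⟨m, Finset.mem_range.2 (by omega), ?_⟩
      rw [dif_pos hm]
      refine Finset.mem_biUnion.2 ⟨_, hb, ?_⟩
      simp only [Finset.mem_filter, Finset.mem_univ, true_and]
      ext i
      have hi : (i : ℕ) < N := i.2.trans_le hm
      simp [pre, hi]
    have h1 := Finset.card_le_card hcov
    have h2 : (univ : Finset (Word N)).card = 2 ^ N := by simp [Word]
    rw [h2] at h1
    have h3 : ((range (N + 1)).biUnion fun m =>
        if h : m ≤ N then (W m).biUnion fun w => univ.filter fun v : Word N =>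
          (fun i : Fin m => v ⟨i, i.2.trans_le h⟩) = w else ∅).card ≤
        ∑ m ∈ range (N + 1), (W m).card * 2 ^ (N - m) := by
      refine Finset.card_biUnion_le.trans (Finset.sum_le_sum fun m hm => ?_)
      have hm' : m ≤ N := by have := Finset.mem_range.1 hm; omega
      rw [dif_pos hm']
      refine Finset.card_biUnion_le.trans ?_
      calc ∑ w ∈ W m, (univ.filter fun v : Word N =>
          (fun i : Fin m => v ⟨i, i.2.trans_le hm'⟩) = w).card ≤ ∑ w ∈ W m, 2 ^ (N - m) :=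
            Finset.sum_le_sum fun w _ => RW_card_prefix hm' w
        _ = _ := by rw [Finset.sum_const, smul_eq_mul]
    have h4 : ((2 : ℝ) ^ N) ≤ ∑ m ∈ range (N + 1), ((W m).card : ℝ) * 2 ^ (N - m) := by
      exact_mod_cast h1.trans h3
    have h5 : ∑ m ∈ range (N + 1), ((W m).card : ℝ) * 2 ^ (N - m) ≤
        ∑ m ∈ range (N + 1), (2 ^ N / 4) * (1 / ((m : ℝ) + 1) ^ 2) := by
      refine Finset.sum_le_sum fun m hm => ?_
      have hm' : m ≤ N := by have := Finset.mem_range.1 hm; omega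
      have h6 : (2 : ℝ) ^ N = 2 ^ m * 2 ^ (N - m) := by rw [← pow_add]; congr 1; omega
      calc ((W m).card : ℝ) * 2 ^ (N - m) ≤ 2 ^ m / (4 * ((m : ℝ) + 1) ^ 2) * 2 ^ (N - m) := by
            gcongr; exact hW m
        _ = _ := by rw [h6]; field_simp
    rw [← Finset.mul_sum] at h5
    have h7 := RW_sum N
    have h8 : (0 : ℝ) < 2 ^ N := by positivity
    have h9 : (0 : ℝ) < 1 / ((N : ℝ) + 1) := by positivity
    have h10 : (2 : ℝ) ^ N / 4 * ∑ m ∈ range (N + 1), (1 : ℝ) / ((m : ℝ) + 1) ^ 2 ≤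
        2 ^ N / 4 * 2 := by gcongr; linarith
    linarith
  -- compactness
  have hcl : ∀ m, IsClosed {b : ℕ → Bool | pre b m ∉ W m} := by
    intro m
    have hc : Continuous fun b : ℕ → Bool => pre b m := by
      unfold pre; fun_prop
    exact isClosed_compl_iff.2 ((isOpen_discrete (W m : Set (Word m))).preimage hc)
  have hcl' : ∀ N : ℕ, IsClosed {b : ℕ → Bool | ∀ m ≤ N, pre b m ∉ W m} := by
    intro N
    have : {b : ℕ → Bool | ∀ m ≤ N, pre b m ∉ W m} =
        ⋂ m, ⋂ (_ : m ≤ N), {b : ℕ → Bool | pre b m ∉ W m} := by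
      ext b; simp
    rw [this]
    exact isClosed_iInter fun m => isClosed_iInter fun _ => hcl m
  obtain ⟨b, hb⟩ := IsCompact.nonempty_iInter_of_sequence_nonempty_isCompact_isClosed
    (fun N : ℕ => {b : ℕ → Bool | ∀ m ≤ N, pre b m ∉ W m})
    (fun N b hb m hm => hb m (hm.trans (Nat.le_succ N))) hfin (hcl' 0).isCompact hcl'
  exact ⟨b, fun m => Set.mem_iInter.1 hb m m le_rfl⟩

end Pool.Agent.helper32.Cant
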