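import Pool.Agent.helper32.Cant.Defs

set_option autoImplicit false

namespace Pool.Agent.helper32.Cant

open MeasureTheory Filter Topology
open scoped ENNReal

/-- a cell of level `n` -/
def RA_cell (o lam : ℝ) (n : ℕ) (j : ℤ) : Set ℝ := {x | ⌊3 ^ n * (x - o) / lam⌋ = j}

theorem RA_ediam_cell {o lam : ℝ} (hlam : 0 < lam) (n : ℕ) (j : ℤ) :
    Metric.ediam (RA_cell o lam n j) ≤ ENNReal.ofReal (lam / 3 ^ n) := by
  refine Metric.ediam_le fun x hx y hy => ?_
  rw [edist_dist, Real.dist_eq]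
  apply ENNReal.ofReal_le_ofReal
  have h3 : (0 : ℝ) < 3 ^ n := by positivity
  have hx' : ⌊3 ^ n * (x - o) / lam⌋ = j := hx
  have hy' : ⌊3 ^ n * (y - o) / lam⌋ = j := hy
  rw [Int.floor_eq_iff] at hx' hy'
  have h1 : |3 ^ n * (x - o) / lam - 3 ^ n * (y - o) / lam| ≤ 1 := by
    rw [abs_le]; constructor <;> linarith [hx'.1, hx'.2, hy'.1, hy'.2]
  have h2 : 3 ^ n * (x - o) / lam - 3 ^ n * (y - o) / lam = (3 ^ n / lam) * (x - y) := by
    field_simp; ring
  rw [h2, abs_mul, abs_of_pos (by positivity)] at h1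
  rw [le_div_iff₀ h3]
  have h4 : |x - y| * 3 ^ n = (3 ^ n / lam * |x - y|) * lam := by field_simp
  rw [h4]
  nlinarith

/-- module RA -/
theorem many_cells (S : Set ℝ) (s : ℝ) (hs : 0 < s) (hS : MeasureTheory.Measure.hausdorffMeasure s S ≠ 0)
    (o : ℝ) (lam : ℝ) (hlam : 0 < lam) (P : ℕ → ℕ → ℝ → Prop)
    (hP : ∀ p, ∀ x ∈ S, ∃ n ≥ p, P p n x) (p0 : ℕ) :
    ∃ p ≥ p0, ∃ n ≥ p, ∀ F : Finset ℤ, (∀ x ∈ S, P p n x → ⌊3 ^ n * (x - o) / lam⌋ ∈ F) →
      (3 : ℝ) ^ (s * n) / ((n : ℝ) + 1) ^ 2 ≤ F.card := by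
  classical
  by_contra! hcon
  apply hS
  choose! F hF1 hF2 using hcon
  -- the cover
  let t : (p : ℕ) → (ℕ × ℤ) → Set ℝ := fun p q =>
    if p ≤ q.1 ∧ q.2 ∈ F p q.1 then RA_cell o lam q.1 q.2 else ∅
  have hle := Measure.hausdorffMeasure_le_liminf_tsum (X := ℝ) (ι := fun _ : ℕ => ℕ × ℤ) s S
    (l := atTop) (fun p => ENNReal.ofReal (lam / 3 ^ p)) ?_ t ?_ ?_
  · refine le_antisymm (hle.trans ?_) (zero_le)
    set f : ℕ → ℝ≥0∞ := fun n => ENNReal.ofReal (lam ^ s * (1 / ((n : ℝ) + 1) ^ 2)) with hf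
    -- bound of the sums
    have hsum : ∀ p ≥ p0, ∑' q, Metric.ediam (t p q) ^ s ≤ ∑' k : ℕ, f (k + p) := by
      intro p hp
      rw [ENNReal.tsum_prod']
      have hinner : ∀ n, ∑' j : ℤ, Metric.ediam (t p (n, j)) ^ s ≤ if p ≤ n then f n else 0 := by
        intro n
        by_cases hn : p ≤ n
        · rw [if_pos hn]
          have h0 : ∀ j ∉ F p n, Metric.ediam (t p (n, j)) ^ s = 0 := by
            intro j hj
            have : ¬ (p ≤ n ∧ j ∈ F p n) := fun h => hj h.2
            simp only [t, if_neg this, Metric.ediam_empty]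
            exact ENNReal.zero_rpow_of_pos hs
          rw [tsum_eq_sum h0]
          have h1 : ∀ j ∈ F p n, Metric.ediam (t p (n, j)) ^ s ≤
              ENNReal.ofReal (lam ^ s / 3 ^ (s * n)) := by
            intro j hj
            have : p ≤ n ∧ j ∈ F p n := ⟨hn, hj⟩
            simp only [t, if_pos this]
            refine (ENNReal.rpow_le_rpow (RA_ediam_cell hlam n j) hs.le).trans (le_of_eq ?_)
            rw [ENNReal.ofReal_rpow_of_pos (by positivity), Real.div_rpow hlam.le (by positivity)]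
            congr 2
            rw [← Real.rpow_natCast, ← Real.rpow_mul (by norm_num), mul_comm]
          refine (Finset.sum_le_sum h1).trans ?_
          rw [Finset.sum_const, nsmul_eq_mul, hf]
          have h2 := hF2 p hp n hn
          have h3 : ((F p n).card : ℝ≥0∞) = ENNReal.ofReal ((F p n).card : ℝ) := by simp
          rw [h3, ← ENNReal.ofReal_mul (by positivity)]
          apply ENNReal.ofReal_le_ofReal
          have h4 : (0 : ℝ) < 3 ^ (s * n) := by positivity
          have h5 : (0 : ℝ) < lam ^ s := by positivity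
          calc ((F p n).card : ℝ) * (lam ^ s / 3 ^ (s * n)) ≤
              (3 : ℝ) ^ (s * n) / ((n : ℝ) + 1) ^ 2 * (lam ^ s / 3 ^ (s * n)) := by gcongr
            _ = _ := by field_simp
        · rw [if_neg hn]
          have h0 : ∀ j, Metric.ediam (t p (n, j)) ^ s = 0 := by
            intro j
            have : ¬ (p ≤ n ∧ j ∈ F p n) := fun h => hn h.1
            simp only [t, if_neg this, Metric.ediam_empty]
            exact ENNReal.zero_rpow_of_pos hs
          simp [h0]
      refine (ENNReal.tsum_le_tsum hinner).trans (le_of_eq ?_)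
      rw [← Summable.sum_add_tsum_nat_add' (k := p) ENNReal.summable]
      rw [Finset.sum_eq_zero, zero_add]
      · exact tsum_congr fun k => by rw [if_pos (Nat.le_add_left p k)]
      · intro i hi
        rw [if_neg (by have := Finset.mem_range.1 hi; omega)]
    have hfin : ∑' n, f n ≠ ⊤ := by
      have hs2 : Summable fun n : ℕ => lam ^ s * (1 / ((n : ℝ) + 1) ^ 2) := by
        apply Summable.mul_left
        have := (summable_nat_add_iff (f := fun n : ℕ => (1 : ℝ) / (n : ℝ) ^ 2) 1).2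
          (Real.summable_one_div_nat_pow.2 (by norm_num))
        simpa using this
      exact hs2.tsum_ofReal_ne_top
    have htend : Tendsto (fun p => ∑' k : ℕ, f (k + p)) atTop (𝓝 0) :=
      ENNReal.tendsto_sum_nat_add f hfin
    calc liminf (fun p => ∑' q, Metric.ediam (t p q) ^ s) atTop
        ≤ liminf (fun p => ∑' k : ℕ, f (k + p)) atTop :=
          liminf_le_liminf ((eventually_ge_atTop p0).mono hsum)
      _ = 0 := htend.liminf_eq
  · have h1 : Tendsto (fun p : ℕ => lam / 3 ^ p) atTop (𝓝 0) := by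
      have := (tendsto_pow_atTop_nhds_zero_of_lt_one (r := (1 / 3 : ℝ)) (by norm_num)
        (by norm_num)).const_mul lam
      rw [mul_zero] at this
      refine this.congr fun p => ?_
      rw [one_div, inv_pow]; rfl
    have h2 := ENNReal.tendsto_ofReal h1
    rwa [ENNReal.ofReal_zero] at h2
  · refine Eventually.of_forall fun p q => ?_
    by_cases h : p ≤ q.1 ∧ q.2 ∈ F p q.1
    · simp only [t, if_pos h]
      refine (RA_ediam_cell hlam q.1 q.2).trans (ENNReal.ofReal_le_ofReal ?_)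
      have : (3 : ℝ) ^ p ≤ 3 ^ q.1 := pow_le_pow_right₀ (by norm_num) h.1
      gcongr
    · simp only [t, if_neg h, Metric.ediam_empty]
      exact zero_le
  · filter_upwards [eventually_ge_atTop p0] with p hp x hx
    obtain ⟨n, hn, hPn⟩ := hP p x hx
    refine Set.mem_iUnion.2 ⟨(n, ⌊3 ^ n * (x - o) / lam⌋), ?_⟩
    have : p ≤ n ∧ ⌊3 ^ n * (x - o) / lam⌋ ∈ F p n := ⟨hn, hF1 p hp n hn x hx hPn⟩
    simp only [t, if_pos this]
    rfl

end Pool.Agent.helper32.Cant
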